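import Pool.Agent.V8H98.JF.Base

/-!
# The twist about the curve joining two adjacent handles
-/

set_option autoImplicit false

namespace Pool.Agent.V8H98.JF

section

/-- Two products which differ in two adjacent places only. -/
lemma prod_ofFn_adj {G : Type*} [Group G] : ∀ (g : ℕ) (u v : Fin g → G) (i j : Fin g),
    (j : ℕ) = i + 1 → (∀ k, k ≠ i → k ≠ j → u k = v k) → u i * u j = v i * v j →
    (List.ofFn u).prod = (List.ofFn v).prod := by
  intro g
  induction g with
  | zero => intro u v i; exact i.elim0
  | succ n ih =>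
    intro u v i j hij huv h
    rw [List.ofFn_succ, List.ofFn_succ, List.prod_cons, List.prod_cons]
    by_cases hi : i = 0
    · subst hi
      cases n with
      | zero => exact absurd j.isLt (by rw [hij]; simp)
      | succ m =>
        have hj : j = Fin.succ 0 := by
          apply Fin.ext
          rw [hij]
          simp
        subst hj
        rw [List.ofFn_succ, List.ofFn_succ, List.prod_cons, List.prod_cons, ← mul_assoc,
          ← mul_assoc, h]
        congr 3
        funext k
        apply huv
        · exact Fin.succ_ne_zero _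
        · intro hk
          exact Fin.succ_ne_zero _ (Fin.succ_injective _ hk)
    · obtain ⟨i', rfl⟩ := Fin.exists_succ_eq.2 hi
      have hj : j ≠ 0 := by
        rintro rfl
        simp at hij
      obtain ⟨j', rfl⟩ := Fin.exists_succ_eq.2 hj
      have h0 : u 0 = v 0 := huv 0 (Fin.succ_ne_zero _).symm (Fin.succ_ne_zero _).symm
      rw [h0, ih (fun k => u k.succ) (fun k => v k.succ) i' j' (by simpa using hij)
        (fun k h1 h2 => huv _ (fun h => h1 (Fin.succ_injective _ h))
          (fun h => h2 (Fin.succ_injective _ h))) h]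

variable {g : ℕ}

/-- The generators of the surface group. -/
abbrev ga (i : Fin g) : SurfaceGroup g := PresentedGroup.of (Sum.inl i)

/-- The generators of the surface group. -/
abbrev gb (i : Fin g) : SurfaceGroup g := PresentedGroup.of (Sum.inr i)

/-- The value of the relator. -/
lemma lift_rel {G : Type*} [Group G] (f : Fin g ⊕ Fin g → G) :
    FreeGroup.lift f (rel g) = (List.ofFn (fun i : Fin g => f (Sum.inl i) * f (Sum.inr i) *
      (f (Sum.inl i))⁻¹ * (f (Sum.inr i))⁻¹)).prod := by
  unfold rel
  rw [map_list_prod, List.map_ofFn]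
  congr 2
  funext i
  simp only [Function.comp_apply, map_mul, map_inv, FreeGroup.lift_apply_of]

lemma rel_one : (List.ofFn (fun i : Fin g => ga i * gb i * (ga i)⁻¹ * (gb i)⁻¹)).prod = 1 := by
  have h := lift_rel (g := g) (fun s => (PresentedGroup.of s : SurfaceGroup g))
  rw [← h]
  have h1 : FreeGroup.lift (fun s => (PresentedGroup.of s : SurfaceGroup g)) =
      PresentedGroup.mk ({rel g} : Set (FreeGroup (Fin g ⊕ Fin g))) := by
    apply FreeGroup.ext_hom
    intro a
    rw [FreeGroup.lift_apply_of]
    rfl
  rw [h1]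
  exact PresentedGroup.one_of_mem (Set.mem_singleton _)

/-- The curve joining the handles. -/
def yy (i j : Fin g) : SurfaceGroup g := (gb i)⁻¹ * ga j * gb j * (ga j)⁻¹

/-- The images of the generators. -/
def dg (i j : Fin g) (n : ℤ) : Fin g ⊕ Fin g → SurfaceGroup g
  | Sum.inl k => if k = i then ga i * yy i j ^ n else if k = j then (yy i j ^ n)⁻¹ * ga j
      else ga k
  | Sum.inr k => if k = i then (yy i j ^ n)⁻¹ * gb i * yy i j ^ n else gb k

lemma dg_rel (i j : Fin g) (hij : (j : ℕ) = i + 1) (n : ℤ) :
    FreeGroup.lift (dg i j n) (rel g) = 1 := by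
  rw [lift_rel, ← rel_one]
  have hne : j ≠ i := by
    rintro rfl
    omega
  apply prod_ofFn_adj g _ _ i j hij
  · intro k h1 h2
    simp only [dg, if_neg h1, if_neg h2]
  · simp only [dg, if_pos rfl, if_neg hne, if_true, if_false]
    have key : (yy i j ^ n)⁻¹ * (yy i j) * (yy i j ^ n) = yy i j := by
      group
    have key2 : (yy i j ^ n)⁻¹ * ((gb i)⁻¹ * ga j * gb j * (ga j)⁻¹) * (yy i j ^ n) =
        (gb i)⁻¹ * ga j * gb j * (ga j)⁻¹ := key
    calc _ = ga i * gb i * (ga i)⁻¹ *
          ((yy i j ^ n)⁻¹ * ((gb i)⁻¹ * ga j * gb j * (ga j)⁻¹) * (yy i j ^ n)) * (gb j)⁻¹ := by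
          group
      _ = _ := by
          rw [key2]
          group

/-- The twist, as an endomorphism. -/
def dh (i j : Fin g) (hij : (j : ℕ) = i + 1) (n : ℤ) : SurfaceGroup g →* SurfaceGroup g :=
  PresentedGroup.toGroup (f := dg i j n) (by
    intro r hr
    rw [Set.mem_singleton_iff] at hr
    subst hr
    exact dg_rel i j hij n)

lemma dh_of (i j : Fin g) (hij : (j : ℕ) = i + 1) (n : ℤ) (s : Fin g ⊕ Fin g) :
    dh i j hij n (PresentedGroup.of s) = dg i j n s := PresentedGroup.toGroup.of _

lemma dh_yy (i j : Fin g) (hij : (j : ℕ) = i + 1) (n : ℤ) : dh i j hij n (yy i j) = yy i j := by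
  have hne : j ≠ i := by
    rintro rfl
    omega
  have key : (yy i j ^ n)⁻¹ * ((gb i)⁻¹ * ga j * gb j * (ga j)⁻¹) * (yy i j ^ n) =
      (gb i)⁻¹ * ga j * gb j * (ga j)⁻¹ := by
    have : (yy i j ^ n)⁻¹ * (yy i j) * (yy i j ^ n) = yy i j := by
      group
    exact this
  unfold yy at key ⊢
  simp only [map_mul, map_inv, dh_of]
  simp only [dg, if_pos rfl, if_neg hne, if_true, if_false]
  unfold yy
  refine Eq.trans ?_ key
  group

lemma dh_dh (i j : Fin g) (hij : (j : ℕ) = i + 1) (n m : ℤ) (hnm : n + m = 0)
    (x : SurfaceGroup g) : dh i j hij n (dh i j hij m x) = x := by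
  have hne : j ≠ i := by
    rintro rfl
    omega
  have hm : m = -n := by omega
  subst hm
  have h : (dh i j hij n).comp (dh i j hij (-n)) = MonoidHom.id _ := by
    apply PresentedGroup.ext
    intro s
    show dh i j hij n (dh i j hij (-n) (PresentedGroup.of s)) = PresentedGroup.of s
    rw [dh_of]
    rcases s with k | k
    · by_cases h1 : k = i
      · subst h1
        simp only [dg, if_pos rfl, if_true, map_mul, map_zpow, dh_yy, dh_of]
        group
      · by_cases h2 : k = j
        · subst h2
          simp only [dg, if_neg h1, if_pos rfl, if_true, if_false, map_mul, map_inv, map_zpow,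
            dh_yy, dh_of]
          group
        · simp only [dg, if_neg h1, if_neg h2, dh_of]
    · by_cases h1 : k = i
      · subst h1
        simp only [dg, if_pos rfl, if_true, map_mul, map_inv, map_zpow, dh_yy, dh_of]
        group
      · simp only [dg, if_neg h1, dh_of]
  exact DFunLike.congr_fun h x

/-- The twist, as an automorphism. -/
def da (i j : Fin g) (hij : (j : ℕ) = i + 1) : MulAut (SurfaceGroup g) where
  toFun := dh i j hij (-1)
  invFun := dh i j hij 1
  left_inv := dh_dh i j hij 1 (-1) rfl
  right_inv := dh_dh i j hij (-1) 1 rfl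
  map_mul' := map_mul _

lemma ext_basis {f f' : V g ≃ₗ[ℤ] V g} (h : ∀ s : Fin g ⊕ Fin g,
    f (Pi.single s 1) = f' (Pi.single s 1)) : f = f' := by
  have h1 : (f : V g →ₗ[ℤ] V g) = f' := by
    apply LinearMap.pi_ext'
    intro s
    apply LinearMap.ext_ring
    exact h s
  apply LinearEquiv.ext
  intro x
  exact LinearMap.congr_fun h1 x

lemma om_single_ee (s : Fin g ⊕ Fin g) (i : Fin g) :
    om (Pi.single s 1 : V g) (ee i) = if s = Sum.inr i then -1 else 0 := by
  rw [om_ee_right, Pi.single_apply]
  by_cases h : s = Sum.inr i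
  · subst h
    simp
  · rw [if_neg h, if_neg (fun h' => h h'.symm)]
    rfl

lemma om_single_ff (s : Fin g ⊕ Fin g) (i : Fin g) :
    om (Pi.single s 1 : V g) (ff i) = if s = Sum.inl i then 1 else 0 := by
  rw [om_ff_right, Pi.single_apply]
  by_cases h : s = Sum.inl i
  · subst h
    simp
  · rw [if_neg h, if_neg (fun h' => h h'.symm)]

/-- **The twist about the curve joining two adjacent handles.** -/
theorem tw_d (i j : Fin g) (hij : (j : ℕ) = i + 1) :
    ∃ φ : MulAut (SurfaceGroup g), rho g φ = tr (ff i - ff j) := by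
  have hne : j ≠ i := by
    rintro rfl
    omega
  refine ⟨da i j hij, ext_basis fun s => ?_⟩
  rw [← cls_of, rho_cls]
  show cls (dh i j hij (-1) (PresentedGroup.of s)) = _
  rw [dh_of, cls_of, tr_apply, om_sub_right, om_single_ff, om_single_ff]
  have hy : cls (yy i j) = ff j - ff i := by
    unfold yy
    simp only [cls_mul, cls_inv, cls_of, ff]
    abel
  have hy1 : cls (yy i j ^ (-1 : ℤ)) = ff i - ff j := by
    rw [zpow_neg_one, cls_inv, hy]
    abel
  rcases s with k | k
  · by_cases h1 : k = i
    · subst h1
      have h2 : (Sum.inl k : Fin g ⊕ Fin g) ≠ Sum.inl j := fun h => hne (Sum.inl_injective h).symm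
      rw [if_pos rfl, if_neg h2, sub_zero, one_smul]
      simp only [dg, if_pos rfl, if_true, cls_mul, hy1, cls_of]
    · by_cases h2 : k = j
      · subst h2
        have h3 : (Sum.inl k : Fin g ⊕ Fin g) ≠ Sum.inl i := fun h => h1 (Sum.inl_injective h)
        rw [if_pos rfl, if_neg h3]
        simp only [dg, if_neg h1, if_pos rfl, if_true, if_false, cls_mul, cls_inv, hy1, cls_of]
        simp only [zero_sub, neg_smul, one_smul]
        abel
      · have h3 : (Sum.inl k : Fin g ⊕ Fin g) ≠ Sum.inl i := fun h => h1 (Sum.inl_injective h)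
        have h4 : (Sum.inl k : Fin g ⊕ Fin g) ≠ Sum.inl j := fun h => h2 (Sum.inl_injective h)
        rw [if_neg h3, if_neg h4]
        simp only [dg, if_neg h1, if_neg h2, cls_of, sub_zero, zero_smul, add_zero]
  · rw [if_neg (fun h => by cases h), if_neg (fun h => by cases h)]
    by_cases h1 : k = i
    · subst h1
      simp only [dg, if_pos rfl, if_true, cls_mul, cls_inv, cls_of, sub_zero, zero_smul, add_zero]
      abel
    · simp only [dg, if_neg h1, cls_of, sub_zero, zero_smul, add_zero]

end

end Pool.Agent.V8H98.JF
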